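import Pool.Agent.Helper26.Er.Defs
import Pool.Agent.Helper26.Ip.Asm

/-!
# Linear regression of stationary waves: the pointwise bound and proportionality (MP_6b977f_mp)
-/

set_option autoImplicit false
set_option linter.unusedSectionVars false
open MeasureTheory Filter Topology ProbabilityTheory
open scoped ContDiff ENNReal InnerProductSpace

namespace Pool.Agent.Helper26.Er

open Pool.Agent.N661.BR (MW J0 IsStationary)
open Pool.Agent.Helper37.BC
open Pool.Agent.Helper26.Ip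
open Pool.Agent.Helper26.Lr
open Pool.Agent.Helper88.Ip (V_mean)
open Pool.Agent.Helper72.Ip (cont_Vg)
open Complex (I)

noncomputable section

section general

variable {Ω : Type*} [MeasurableSpace Ω] {μ : Measure Ω} [IsProbabilityMeasure μ]

theorem exp_sub (a b : ℝ) : ‖Complex.exp (I * (a : ℂ)) - Complex.exp (I * (b : ℂ))‖ ≤ |a - b| := by
  have h1 : Complex.exp (I * (a : ℂ)) - Complex.exp (I * (b : ℂ)) =
      Complex.exp (I * (b : ℂ)) * (Complex.exp (I * ((a - b : ℝ) : ℂ)) - 1) := by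
    rw [mul_sub, ← Complex.exp_add, mul_one]
    congr 2
    push_cast
    ring
  rw [h1, norm_mul, mul_comm I (b : ℂ), Complex.norm_exp_ofReal_mul_I, one_mul]
  have := Real.norm_exp_I_mul_ofReal_sub_one_le (x := a - b)
  simpa using this

theorem exp_one (a : ℝ) : ‖Complex.exp (I * (a : ℂ))‖ = 1 := by
  rw [mul_comm, Complex.norm_exp_ofReal_mul_I]

theorem meas_e (c : Lp ℝ 2 μ) : AEStronglyMeasurable
    (fun f => Complex.exp (I * ((c f : ℝ) : ℂ))) μ := by
  have h := Lp.aestronglyMeasurable c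
  exact (Complex.continuous_exp.comp (continuous_const.mul Complex.continuous_ofReal)).comp_aestronglyMeasurable h

theorem lp_int (k : Lp ℝ 2 μ) : Integrable (fun f => k f) μ :=
  (Lp.memLp k).integrable (by norm_num)

theorem int_D (c k : Lp ℝ 2 μ) :
    Integrable (fun f => (k f : ℂ) * Complex.exp (I * ((c f : ℝ) : ℂ))) μ := by
  have h := (lp_int k).ofReal (𝕜 := ℂ)
  refine h.mul_bdd (c := 1) (meas_e c) (Eventually.of_forall fun f => ?_)
  rw [exp_one]

/-- `E |v|² = ‖v‖²` -/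
theorem nsq (v : Lp ℝ 2 μ) : ∫ f, v f * v f ∂μ = ‖v‖ ^ 2 := by
  rw [inner_int, real_inner_self_eq_norm_sq]

theorem D_diff (c v : Lp ℝ 2 μ) (t : ℝ) : ‖D c v - D (c - t • v) v‖ ≤ |t| * ‖v‖ ^ 2 := by
  unfold D
  rw [← integral_sub (int_D c v) (int_D (c - t • v) v)]
  refine (norm_integral_le_integral_norm _).trans ?_
  rw [← nsq v, ← integral_const_mul]
  refine integral_mono_ae ((int_D c v).sub (int_D (c - t • v) v)).norm ?_ ?_
  · exact ((Lp.memLp v).integrable_mul (Lp.memLp v)).const_mul |t|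
  · filter_upwards [Lp.coeFn_sub c (t • v), Lp.coeFn_smul t v] with f h1 h2
    show ‖(v f : ℂ) * Complex.exp (I * ((c f : ℝ) : ℂ)) -
      (v f : ℂ) * Complex.exp (I * (((c - t • v : Lp ℝ 2 μ) f : ℝ) : ℂ))‖ ≤ |t| * (v f * v f)
    rw [← mul_sub, norm_mul, Complex.norm_real, Real.norm_eq_abs]
    have h3 := exp_sub (c f) ((c - t • v : Lp ℝ 2 μ) f)
    have h4 : c f - (c - t • v : Lp ℝ 2 μ) f = t * v f := by
      rw [h1, Pi.sub_apply, h2, Pi.smul_apply, smul_eq_mul]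
      ring
    rw [h4, abs_mul] at h3
    calc |v f| * _ ≤ |v f| * (|t| * |v f|) := by gcongr
      _ = |t| * (|v f| * |v f|) := by ring
      _ = |t| * (v f * v f) := by rw [abs_mul_abs_self]

theorem D_zero_right (c : Lp ℝ 2 μ) : D c 0 = 0 := by
  unfold D
  have : (fun f => (((0 : Lp ℝ 2 μ) f : ℝ) : ℂ) * Complex.exp (I * ((c f : ℝ) : ℂ))) =ᵐ[μ]
      fun _ => 0 := by
    filter_upwards [Lp.coeFn_zero ℝ 2 μ] with f hf
    rw [hf]
    simp
  rw [integral_congr_ae this, integral_zero]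

theorem D_add (c k l : Lp ℝ 2 μ) : D c (k + l) = D c k + D c l := by
  unfold D
  rw [← integral_add (int_D c k) (int_D c l)]
  refine integral_congr_ae ?_
  filter_upwards [Lp.coeFn_add k l] with f hf
  rw [hf, Pi.add_apply]
  push_cast
  ring

theorem D_smul (c : Lp ℝ 2 μ) (t : ℝ) (k : Lp ℝ 2 μ) : D c (t • k) = t * D c k := by
  unfold D
  rw [← integral_const_mul]
  refine integral_congr_ae ?_
  filter_upwards [Lp.coeFn_smul t k] with f hf
  show _ = (t : ℂ) * ((k f : ℂ) * Complex.exp (I * ((c f : ℝ) : ℂ)))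
  rw [hf, Pi.smul_apply, smul_eq_mul]
  push_cast
  ring

/-- cosine and sine of `c` in `L²` -/
theorem cos_two (c : Lp ℝ 2 μ) : MemLp (fun f => Real.cos (c f)) 2 μ :=
  MemLp.of_bound (Real.continuous_cos.comp_aestronglyMeasurable (Lp.aestronglyMeasurable c)) 1
    (Eventually.of_forall fun f => by rw [Real.norm_eq_abs]; exact Real.abs_cos_le_one _)

theorem sin_two (c : Lp ℝ 2 μ) : MemLp (fun f => Real.sin (c f)) 2 μ :=
  MemLp.of_bound (Real.continuous_sin.comp_aestronglyMeasurable (Lp.aestronglyMeasurable c)) 1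
    (Eventually.of_forall fun f => by rw [Real.norm_eq_abs]; exact Real.abs_sin_le_one _)

theorem D_re (c k : Lp ℝ 2 μ) : (D c k).re = ⟪k, (cos_two c).toLp _⟫_ℝ := by
  unfold D
  rw [← inner_int, ← RCLike.re_eq_complex_re, ← integral_re (int_D c k)]
  refine integral_congr_ae ?_
  filter_upwards [MemLp.coeFn_toLp (cos_two c)] with f hf
  rw [hf]
  show ((k f : ℂ) * Complex.exp (I * ((c f : ℝ) : ℂ))).re = _
  rw [Complex.re_ofReal_mul, mul_comm I, Complex.exp_ofReal_mul_I_re]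

theorem D_im (c k : Lp ℝ 2 μ) : (D c k).im = ⟪k, (sin_two c).toLp _⟫_ℝ := by
  unfold D
  rw [← inner_int, ← RCLike.im_eq_complex_im, ← integral_im (int_D c k)]
  refine integral_congr_ae ?_
  filter_upwards [MemLp.coeFn_toLp (sin_two c)] with f hf
  rw [hf]
  show ((k f : ℂ) * Complex.exp (I * ((c f : ℝ) : ℂ))).im = _
  rw [Complex.im_ofReal_mul, mul_comm I, Complex.exp_ofReal_mul_I_im]

end general

variable {μ : Measure MW} [IsProbabilityMeasure μ]

/-- **the pointwise bound** -/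
theorem D_le (hs : IsStationary μ) (h2 : Integrable (fun f : MW => f 0 ^ 2) μ)
    (h1 : Cond1 hs h2) {c : Lp ℝ 2 μ} (hc : c ∈ values μ) (x : ℂ) :
    ‖D c (V hs h2 x)‖ ≤ |⟪V hs h2 x, c⟫_ℝ| := by
  obtain ⟨v, hv⟩ : ∃ v, v = V hs h2 x := ⟨_, rfl⟩
  have hvm : v ∈ values μ := by rw [hv]; exact V_mem hs h2 x
  rw [← hv]
  by_cases h0 : v = 0
  · rw [h0, D_zero_right, norm_zero]
    exact abs_nonneg _
  have hn : ‖v‖ ^ 2 ≠ 0 := by
    have := norm_ne_zero_iff.2 h0
    positivity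
  obtain ⟨a, ha⟩ : ∃ a, a = ⟪v, c⟫_ℝ := ⟨_, rfl⟩
  have h3 : ⟪c - (a / ‖v‖ ^ 2) • v, V hs h2 x⟫_ℝ = 0 := by
    rw [← hv, inner_sub_left, inner_smul_left, real_inner_self_eq_norm_sq, real_inner_comm, ← ha]
    simp only [conj_trivial]
    field_simp
    ring
  have h4 : D (c - (a / ‖v‖ ^ 2) • v) v = 0 := by
    have := h1 _ ((values μ).sub_mem hc ((values μ).smul_mem (a / ‖v‖ ^ 2) hvm)) x h3
    rw [← hv] at this
    exact this
  have h5 := D_diff c v (a / ‖v‖ ^ 2)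
  rw [h4, sub_zero, abs_div, abs_of_nonneg (sq_nonneg ‖v‖), div_mul_cancel₀ _ hn] at h5
  rw [← ha]
  exact h5

/-- proportionality of dominated waves -/
def Prop4 : Prop := ∀ (u w : ℂ → ℝ), Continuous u → MeanValue u → Continuous w → MeanValue w →
  ∀ M : ℝ, (∀ z, |u z| ≤ M) → (∀ z, |w z| ≤ |u z|) → ∃ l : ℝ, ∀ z, w z = l * u z

theorem mv (hs : IsStationary μ) (h2 : Integrable (fun f : MW => f 0 ^ 2) μ) (g : Lp ℝ 2 μ) :
    MeanValue fun x => ⟪V hs h2 x, g⟫_ℝ := fun z r hr => by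
  have h := V_mean hs h2 g z hr
  rw [← h]
  refine intervalIntegral.integral_congr fun θ _ => ?_
  show ⟪V hs h2 (z + r * ee θ), g⟫_ℝ = _
  rw [ee_exp]

/-- **the derivatives of the characteristic functional are proportional to the covariance** -/
theorem D_prop (hP : Prop4) (hs : IsStationary μ) (h2 : Integrable (fun f : MW => f 0 ^ 2) μ)
    (h1 : Cond1 hs h2) {c : Lp ℝ 2 μ} (hc : c ∈ values μ) :
    ∃ l : ℂ, ∀ k ∈ values μ, D c k = l * (⟪c, k⟫_ℝ : ℝ) := by
  have hb : ∀ x, |⟪V hs h2 x, c⟫_ℝ| ≤ ‖V hs h2 0‖ * ‖c‖ := by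
    intro x
    refine (abs_real_inner_le_norm _ _).trans (le_of_eq ?_)
    congr 1
    have := S_V hs h2 x 0
    rw [zero_add] at this
    rw [← this, (S hs x).norm_map]
  obtain ⟨l1, hl1⟩ := hP (fun x => ⟪V hs h2 x, c⟫_ℝ) (fun x => ⟪V hs h2 x, (cos_two c).toLp _⟫_ℝ)
    (cont_Vg hs h2 c) (mv hs h2 c) (cont_Vg hs h2 _) (mv hs h2 _) _ hb (fun x => by
      rw [← D_re]
      exact (Complex.abs_re_le_norm _).trans (D_le hs h2 h1 hc x))
  obtain ⟨l2, hl2⟩ := hP (fun x => ⟪V hs h2 x, c⟫_ℝ) (fun x => ⟪V hs h2 x, (sin_two c).toLp _⟫_ℝ)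
    (cont_Vg hs h2 c) (mv hs h2 c) (cont_Vg hs h2 _) (mv hs h2 _) _ hb (fun x => by
      rw [← D_im]
      exact (Complex.abs_im_le_norm _).trans (D_le hs h2 h1 hc x))
  -- the real identities on `values μ`
  have key : ∀ (g : Lp ℝ 2 μ) (l : ℝ), (∀ x, ⟪V hs h2 x, g⟫_ℝ = l * ⟪V hs h2 x, c⟫_ℝ) →
      ∀ k ∈ values μ, ⟪k, g⟫_ℝ = l * ⟪k, c⟫_ℝ := by
    intro g l h k hk
    refine values_induction hs h2 (p := fun k => ⟪k, g⟫_ℝ = l * ⟪k, c⟫_ℝ) ?_ h ?_ ?_ ?_ hk
    · exact isClosed_eq (by fun_prop) (by fun_prop)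
    · simp
    · intro a b ha hb
      rw [inner_add_left, inner_add_left, ha, hb]
      ring
    · intro t a ha
      rw [inner_smul_left, inner_smul_left, ha]
      ring
  refine ⟨(l1 : ℂ) + l2 * I, fun k hk => ?_⟩
  have e1 := key _ l1 hl1 k hk
  have e2 := key _ l2 hl2 k hk
  rw [← D_re] at e1
  rw [← D_im] at e2
  rw [real_inner_comm] at e1 e2
  refine Complex.ext ?_ ?_
  · rw [e1]
    simp
  · rw [e2]
    simp

end

end Pool.Agent.Helper26.Er
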