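import Pool.Agent.Helper26.Er.Fn
import Pool.Agent.Helper26.Er.E1
import Pool.Agent.Helper41.Lr.LR5
import Pool.Agent.Helper1.Er.E2cd
import Pool.Agent.Helper12.Er.E4
import Pool.Agent.Helper63.Er.E2a
import Pool.Agent.Helper72.Er.E6

/-!
# Linear regression of stationary waves: from random variables to `L²` (MP_6b977f_mp)
-/

set_option autoImplicit false
set_option linter.unusedSectionVars false
open MeasureTheory Filter Topology ProbabilityTheory
open scoped ContDiff ENNReal InnerProductSpace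

namespace Pool.Agent.Helper26.Er

open Pool.Agent.N661.BR (MW J0 IsStationary lin meas_lin IsGaussianLaw)
open Pool.Agent.Helper37.BC
open Pool.Agent.Helper26.Ip
open Pool.Agent.Helper26.Lr
open Pool.Agent.Helper41.Ip (cmb cmb_coe ch_cmb span_cmb ch_cont)
open Pool.Agent.Helper41.Lr (g_cont S_int1 S_back S_V0)
open Pool.Agent.Helper72.Ip (cont_Vg)
open Pool.Agent.Helper72.Lr (int_exp_of_condExp int_exp int_mul_of_condExp)
open Complex (I)

noncomputable section

variable {μ : Measure MW} [IsProbabilityMeasure μ]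

variable {U : Set ℂ}

theorem lin_exp (hs : IsStationary μ) (h2 : Integrable (fun f : MW => f 0 ^ 2) μ)
    (hR : LinearRegression U μ) (k : ℕ) (w : Fin k → ℂ) (t : Fin k → ℝ) (hw : ∀ j, w j ∈ U)
    (h : ∫ f : MW, f 0 * lin w t f ∂μ = 0) :
    ∫ f : MW, (f 0 : ℂ) * Complex.exp (I * (lin w t f : ℝ)) ∂μ = 0 := by
  have h0 : Integrable (fun f : MW => f 0) μ := (eval_two hs h2 0).integrable (by norm_num)
  have h5 := int_exp_of_condExp (g := fun f : MW => f 0) h0 (meas_lin w t) (hR k w t hw h)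
  rw [Complex.ofReal_zero, zero_mul] at h5
  exact h5

/-- the span of the values in `U` consists of the finite combinations -/
theorem span_cmb_U (hs : IsStationary μ) (h2 : Integrable (fun f : MW => f 0 ^ 2) μ)
    {c : Lp ℝ 2 μ} (hc : c ∈ Submodule.span ℝ (V hs h2 '' U)) :
    ∃ (k : ℕ) (w : Fin k → ℂ) (t : Fin k → ℝ), (∀ j, w j ∈ U) ∧ c = cmb hs h2 w t := by
  induction hc using Submodule.span_induction with
  | mem x hx =>
    obtain ⟨y, hy, rfl⟩ := hx
    exact ⟨1, fun _ => y, fun _ => 1, fun _ => hy, by unfold cmb; simp⟩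
  | zero => exact ⟨0, fun _ => 0, fun _ => 0, fun j => j.elim0, by unfold cmb; simp⟩
  | add x y _ _ hx hy =>
    obtain ⟨k, w, t, hw, rfl⟩ := hx
    obtain ⟨k', w', t', hw', rfl⟩ := hy
    refine ⟨k + k', Fin.append w w', Fin.append t t', fun j => ?_, ?_⟩
    · refine Fin.addCases (fun i => ?_) (fun i => ?_) j
      · rw [Fin.append_left]
        exact hw i
      · rw [Fin.append_right]
        exact hw' i
    · unfold cmb
      rw [Fin.sum_univ_add]
      simp only [Fin.append_left, Fin.append_right]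
  | smul a x _ hx =>
    obtain ⟨k, w, t, hw, rfl⟩ := hx
    refine ⟨k, w, fun j => a * t j, hw, ?_⟩
    unfold cmb
    rw [Finset.smul_sum]
    exact Finset.sum_congr rfl fun j _ => by rw [smul_smul]

/-- **the values in an open set span all values** -/
theorem dense_U (hs : IsStationary μ) (h2 : Integrable (fun f : MW => f 0 ^ 2) μ)
    (hU : IsOpen U) (hne : U.Nonempty) {c : Lp ℝ 2 μ} (hc : c ∈ values μ) :
    c ∈ (Submodule.span ℝ (V hs h2 '' U)).topologicalClosure := by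
  set K := (Submodule.span ℝ (V hs h2 '' U)).topologicalClosure with hK
  have : CompleteSpace K := (Submodule.isClosed_topologicalClosure _).completeSpace_coe
  have hKv : K ≤ values μ := by
    refine Submodule.topologicalClosure_minimal _ (Submodule.span_le.2 ?_) values_closed
    rintro _ ⟨y, _, rfl⟩
    exact V_mem hs h2 y
  obtain ⟨g, hg⟩ : ∃ g, g = c - K.starProjection c := ⟨_, rfl⟩
  have hgK : g ∈ Kᗮ := by
    rw [hg]
    exact Submodule.sub_starProjection_mem_orthogonal c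
  have hgv : g ∈ values μ := by
    rw [hg]
    exact Submodule.sub_mem _ hc (hKv (Submodule.starProjection_apply_mem K c))
  obtain ⟨z, hz⟩ := hne
  obtain ⟨δ, hδ, hball⟩ := Metric.isOpen_iff.1 hU z hz
  have hb : ∀ x, |⟪V hs h2 x, g⟫_ℝ| ≤ ‖V hs h2 0‖ * ‖g‖ := fun x => by
    rw [← Pool.Agent.Helper72.Er.V_eq hs h2 x]
    exact abs_real_inner_le_norm _ _
  have h0 : ∀ x, ⟪V hs h2 x, g⟫_ℝ = 0 :=
    Pool.Agent.Helper12.Er.unique_cont Pool.Agent.Helper1.Er.mean_deriv
      Pool.Agent.Helper1.Er.fderiv_bound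
      (Pool.Agent.Helper63.Er.smooth_of_mean (cont_Vg hs h2 g) (mv hs h2 g)) (mv hs h2 g) hb hδ
      fun x hx => (Submodule.mem_orthogonal K g).1 hgK _ (Submodule.le_topologicalClosure _
        (Submodule.subset_span ⟨x, hball hx, rfl⟩))
  have h1 : ∀ k ∈ values μ, ⟪k, g⟫_ℝ = 0 := by
    intro k hk
    refine values_induction hs h2 (p := fun k => ⟪k, g⟫_ℝ = 0) ?_ h0 ?_ ?_ ?_ hk
    · exact isClosed_eq (by fun_prop) continuous_const
    · exact inner_zero_left _
    · intro a b ha hb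
      rw [inner_add_left, ha, hb, add_zero]
    · intro t a ha
      rw [inner_smul_left, ha, mul_zero]
  have h3 : g = 0 := inner_self_eq_zero.1 (h1 g hgv)
  rw [hg] at h3
  rw [sub_eq_zero.1 h3]
  exact Submodule.starProjection_apply_mem K c

theorem span_id (hs : IsStationary μ) (h2 : Integrable (fun f : MW => f 0 ^ 2) μ)
    (hR : LinearRegression U μ) {c : Lp ℝ 2 μ} (hc : c ∈ Submodule.span ℝ (V hs h2 '' U))
    (h0 : ⟪c, V hs h2 0⟫_ℝ = 0) : D c (V hs h2 0) = 0 := by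
  obtain ⟨k, w, t, hw, rfl⟩ := span_cmb_U hs h2 hc
  have h1 : ∫ f : MW, f 0 * lin w t f ∂μ = 0 := by
    refine Eq.trans ?_ ((inner_int _ _).trans h0)
    refine integral_congr_ae ?_
    filter_upwards [cmb_coe hs h2 w t, V_coe hs h2 0] with f h3 h4
    rw [h3, h4, mul_comm]
  refine Eq.trans ?_ (lin_exp hs h2 hR k w t hw h1)
  refine integral_congr_ae ?_
  filter_upwards [cmb_coe hs h2 w t, V_coe hs h2 0] with f h5 h6
  rw [h5, h6]

theorem values_id (hs : IsStationary μ) (h2 : Integrable (fun f : MW => f 0 ^ 2) μ)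
    (hU : IsOpen U) (hne : U.Nonempty) (hR : LinearRegression U μ) {c : Lp ℝ 2 μ}
    (hc : c ∈ values μ) (h0 : ⟪c, V hs h2 0⟫_ℝ = 0) : D c (V hs h2 0) = 0 := by
  by_cases hv0 : V hs h2 0 = 0
  · rw [hv0, D_zero_right]
  obtain ⟨v, hv⟩ : ∃ v, v = V hs h2 0 := ⟨_, rfl⟩
  -- an element of the span which is not orthogonal to `v`
  obtain ⟨d, hd, hdv⟩ : ∃ d ∈ Submodule.span ℝ (V hs h2 '' U), ⟪d, v⟫_ℝ ≠ 0 := by
    by_contra hcon
    push Not at hcon
    have hcl : IsClosed {d : Lp ℝ 2 μ | ⟪d, v⟫_ℝ = 0} := isClosed_eq (by fun_prop) continuous_const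
    have h3 := (hcl.closure_subset_iff.2 hcon) (dense_U hs h2 hU hne (V_mem hs h2 0))
    have h4 : ⟪V hs h2 0, v⟫_ℝ = 0 := h3
    rw [hv] at h4
    exact hv0 (inner_self_eq_zero.1 h4)
  rw [← hv] at h0 ⊢
  let T : Lp ℝ 2 μ → Lp ℝ 2 μ := fun c => c - (⟪c, v⟫_ℝ / ⟪d, v⟫_ℝ) • d
  have hT : Continuous T := by
    have h1 : Continuous fun c : Lp ℝ 2 μ => ⟪c, v⟫_ℝ := continuous_id.inner continuous_const
    show Continuous fun c : Lp ℝ 2 μ => c - (⟪c, v⟫_ℝ / ⟪d, v⟫_ℝ) • d
    fun_prop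
  have hTv : ∀ c, ⟪T c, v⟫_ℝ = 0 := by
    intro c
    show ⟪c - (⟪c, v⟫_ℝ / ⟪d, v⟫_ℝ) • d, v⟫_ℝ = 0
    rw [inner_sub_left, inner_smul_left]
    simp only [conj_trivial]
    rw [div_mul_cancel₀ _ hdv, sub_self]
  have hTc : T c = c := by
    show c - (⟪c, v⟫_ℝ / ⟪d, v⟫_ℝ) • d = c
    rw [h0, zero_div, zero_smul, sub_zero]
  have hi1 : Integrable (fun f => v f) μ := lp_int v
  have hcl : IsClosed {c : Lp ℝ 2 μ | D (T c) v = 0} :=
    isClosed_eq ((g_cont (fun f => v f) hi1).comp hT) continuous_const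
  have hsub : ((Submodule.span ℝ (V hs h2 '' U) : Submodule ℝ (Lp ℝ 2 μ)) :
      Set (Lp ℝ 2 μ)) ⊆ {c : Lp ℝ 2 μ | D (T c) v = 0} := by
    intro c hc
    have h3 : T c ∈ Submodule.span ℝ (V hs h2 '' U) :=
      Submodule.sub_mem _ hc (Submodule.smul_mem _ _ hd)
    have h4 := hTv c
    rw [hv] at h4 ⊢
    exact span_id hs h2 hR h3 h4
  have h3 : D (T c) v = 0 := (hcl.closure_subset_iff.2 hsub) (dense_U hs h2 hU hne hc)
  rwa [hTc] at h3

/-- the first condition -/
theorem cond1_lin (hs : IsStationary μ) (h2 : Integrable (fun f : MW => f 0 ^ 2) μ)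
    (hU : IsOpen U) (hne : U.Nonempty) (hR : LinearRegression U μ) : Cond1 hs h2 := by
  intro c hc x h0
  have hc' : S hs (-x) c ∈ values μ := S_values hs h2 (-x) hc
  have h0' : ⟪S hs (-x) c, V hs h2 0⟫_ℝ = 0 := by
    rw [← (S hs x).inner_map_map, S_back, S_V0, h0]
  have h3 : ∫ f, ((V hs h2 0) f : ℂ) * Complex.exp (I * (((S hs (-x) c) f : ℝ) : ℂ)) ∂μ = 0 :=
    values_id hs h2 hU hne hR hc' h0'
  rw [← S_int1 hs x, S_back, S_V0] at h3
  exact h3

theorem nsq_cmb (hs : IsStationary μ) (h2 : Integrable (fun f : MW => f 0 ^ 2) μ) {k : ℕ}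
    (w : Fin k → ℂ) (t : Fin k → ℝ) : ‖cmb hs h2 w t‖ ^ 2 = ∫ f : MW, lin w t f ^ 2 ∂μ := by
  rw [← nsq]
  refine integral_congr_ae ?_
  filter_upwards [cmb_coe hs h2 w t] with f hf
  rw [hf, sq]

theorem charFun_cmb (hs : IsStationary μ) (h2 : Integrable (fun f : MW => f 0 ^ 2) μ) {k : ℕ}
    (w : Fin k → ℂ) (t : Fin k → ℝ) (s : ℝ) :
    charFun (μ.map (lin w t)) s = ch (s • cmb hs h2 w t) := by
  rw [charFun_apply_real, integral_map (meas_lin w t).aemeasurable (by fun_prop)]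
  unfold ch
  refine integral_congr_ae ?_
  filter_upwards [cmb_coe hs h2 w t, Lp.coeFn_smul s (cmb hs h2 w t)] with f h1 h3
  rw [h3, Pi.smul_apply, h1, smul_eq_mul]
  congr 1
  push_cast
  ring

/-- isotropy in `L²` is isotropy for finite combinations -/
theorem iso_iff (hs : IsStationary μ) (h2 : Integrable (fun f : MW => f 0 ^ 2) μ) :
    Iso μ ↔ IsIsotropic μ := by
  constructor
  · intro h k w t k' w' t' he
    have hm := meas_lin w t
    have hm' := meas_lin w' t'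
    have : IsProbabilityMeasure (μ.map (lin w t)) :=
      Measure.isProbabilityMeasure_map hm.aemeasurable
    have : IsProbabilityMeasure (μ.map (lin w' t')) :=
      Measure.isProbabilityMeasure_map hm'.aemeasurable
    refine Measure.ext_of_charFun ?_
    funext s
    rw [charFun_cmb hs h2, charFun_cmb hs h2]
    have e1 : ‖cmb hs h2 w t‖ = ‖cmb hs h2 w' t'‖ := by
      rw [← nsq_cmb hs h2, ← nsq_cmb hs h2] at he
      exact (sq_eq_sq₀ (norm_nonneg _) (norm_nonneg _)).1 he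
    refine h _ ((values μ).smul_mem s ?_) _ ((values μ).smul_mem s ?_) ?_
    · exact Submodule.sum_mem _ fun j _ => Submodule.smul_mem _ _ (V_mem hs h2 _)
    · exact Submodule.sum_mem _ fun j _ => Submodule.smul_mem _ _ (V_mem hs h2 _)
    · rw [norm_smul, norm_smul, e1]
  · intro h c hc c' hc' he
    -- finite combinations
    have hspan : ∀ a ∈ Submodule.span ℝ (Set.range (V hs h2)),
        ∀ b ∈ Submodule.span ℝ (Set.range (V hs h2)), ‖a‖ = ‖b‖ → ch a = ch b := by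
      intro a ha b hb hab
      obtain ⟨k, w, t, rfl⟩ := span_cmb hs h2 ha
      obtain ⟨k', w', t', rfl⟩ := span_cmb hs h2 hb
      have h3 := h k w t k' w' t' (by rw [← nsq_cmb hs h2, ← nsq_cmb hs h2, hab])
      have h4 := charFun_cmb hs h2 w t 1
      have h5 := charFun_cmb hs h2 w' t' 1
      rw [one_smul] at h4 h5
      rw [← h4, ← h5, h3]
    by_cases h0 : c = 0
    · have h1 : ‖c'‖ = 0 := by rw [← he, h0, norm_zero]
      rw [h0, norm_eq_zero.1 h1]
    have h0' : c' ≠ 0 := fun h1 => h0 (norm_eq_zero.1 (by rw [he, h1, norm_zero]))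
    rw [values_eq hs h2] at hc hc'
    obtain ⟨a, ha, hal⟩ := mem_closure_iff_seq_limit.1 hc
    obtain ⟨b, hb, hbl⟩ := mem_closure_iff_seq_limit.1 hc'
    have hG : ∀ (e : Lp ℝ 2 μ) (_ : e ≠ 0) (u : ℕ → Lp ℝ 2 μ), Tendsto u atTop (𝓝 e) →
        Tendsto (fun n => ch ((‖e‖ / ‖u n‖) • u n)) atTop (𝓝 (ch e)) := by
      intro e he0 u hu
      have h3 : Tendsto (fun n => (‖e‖ / ‖u n‖) • u n) atTop (𝓝 ((‖e‖ / ‖e‖) • e)) :=
        (tendsto_const_nhds.div hu.norm (norm_ne_zero_iff.2 he0)).smul hu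
      rw [div_self (norm_ne_zero_iff.2 he0), one_smul] at h3
      exact (ch_cont.tendsto e).comp h3
    have k1 := hG c h0 a hal
    have k2 := hG c' h0' b hbl
    have k3 : ∀ᶠ n in atTop, ch ((‖c‖ / ‖a n‖) • a n) = ch ((‖c'‖ / ‖b n‖) • b n) := by
      filter_upwards [hal.eventually_ne h0, hbl.eventually_ne h0'] with n g1 g2
      refine hspan _ (Submodule.smul_mem _ _ (ha n)) _ (Submodule.smul_mem _ _ (hb n)) ?_
      rw [norm_smul, norm_smul, Real.norm_eq_abs, Real.norm_eq_abs,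
        abs_of_nonneg (by positivity), abs_of_nonneg (by positivity),
        div_mul_cancel₀ _ (norm_ne_zero_iff.2 g1), div_mul_cancel₀ _ (norm_ne_zero_iff.2 g2), he]
    exact tendsto_nhds_unique (k1.congr' k3) k2

/-- one constant conditional second moment -/
theorem var_exp (hs : IsStationary μ) (h2 : Integrable (fun f : MW => f 0 ^ 2) μ) {k : ℕ}
    (w : Fin k → ℂ) (t : Fin k → ℝ) (hX : ConstantVariance μ (lin w t)) (s : ℝ) :
    ∫ f, (((V hs h2 0) f ^ 2 : ℝ) : ℂ) *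
      Complex.exp (I * (((s • cmb hs h2 w t : Lp ℝ 2 μ) f : ℝ) : ℂ)) ∂μ =
      (‖V hs h2 0‖ ^ 2 : ℝ) * ch (s • cmb hs h2 w t) := by
  have hm := meas_lin w t
  have e1 : ‖V hs h2 0‖ ^ 2 = ∫ f : MW, f 0 ^ 2 ∂μ := by
    rw [← nsq]
    refine integral_congr_ae ?_
    filter_upwards [V_coe hs h2 0] with f hf
    rw [hf, sq]
  have hms : Measurable fun f : MW => s * lin w t f := hm.const_mul s
  have e2 : ∫ f, (((V hs h2 0) f ^ 2 : ℝ) : ℂ) *
      Complex.exp (I * (((s • cmb hs h2 w t : Lp ℝ 2 μ) f : ℝ) : ℂ)) ∂μ =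
      ∫ f : MW, ((f 0 ^ 2 : ℝ) : ℂ) * Complex.exp (I * ((s * lin w t f : ℝ) : ℂ)) ∂μ := by
    refine integral_congr_ae ?_
    filter_upwards [V_coe hs h2 0, cmb_coe hs h2 w t, Lp.coeFn_smul s (cmb hs h2 w t)] with f g1 g2 g3
    rw [g1, g3, Pi.smul_apply, g2, smul_eq_mul]
  have e3 : ch (s • cmb hs h2 w t) =
      ∫ f : MW, ((1 : ℝ) : ℂ) * Complex.exp (I * ((s * lin w t f : ℝ) : ℂ)) ∂μ := by
    unfold ch
    refine integral_congr_ae ?_
    filter_upwards [cmb_coe hs h2 w t, Lp.coeFn_smul s (cmb hs h2 w t)] with f g2 g3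
    rw [g3, Pi.smul_apply, g2, smul_eq_mul, Complex.ofReal_one, one_mul]
  have c1 := int_mul_of_condExp (g := fun f : MW => f 0 ^ 2) h2 hm hX
    (u := fun x => Real.cos (s * x)) (Real.measurable_cos.comp (measurable_const_mul s))
    fun x => Real.abs_cos_le_one _
  have c2 := int_mul_of_condExp (g := fun f : MW => f 0 ^ 2) h2 hm hX
    (u := fun x => Real.sin (s * x)) (Real.measurable_sin.comp (measurable_const_mul s))
    fun x => Real.abs_sin_le_one _
  rw [e2, e3, int_exp (g := fun f : MW => f 0 ^ 2) h2 hms,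
    int_exp (g := fun _ : MW => (1 : ℝ)) (integrable_const 1) hms]
  rw [c1, c2, e1]
  simp only [one_mul]
  push_cast
  ring

/-- a linear combination which is uncorrelated with `f 0` -/
theorem cmb_perp (hs : IsStationary μ) (h2 : Integrable (fun f : MW => f 0 ^ 2) μ) {k : ℕ}
    (w : Fin k → ℂ) (t : Fin k → ℝ) (h : ∫ f : MW, f 0 * lin w t f ∂μ = 0) :
    ⟪cmb hs h2 w t, V hs h2 0⟫_ℝ = 0 := by
  rw [← inner_int]
  refine Eq.trans ?_ h
  refine integral_congr_ae ?_
  filter_upwards [cmb_coe hs h2 w t, V_coe hs h2 0] with f h3 h4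
  rw [h3, h4, mul_comm]

end

end Pool.Agent.Helper26.Er
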