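import Pool.Agent.Helper26.Ip.Asm
import Pool.Agent.Helper26.Er.Br
import Pool.Agent.Helper1.Er.E2cd
import Pool.Agent.Helper12.Er.E4
import Pool.Agent.Helper38.Er.E2b
import Pool.Agent.Helper38.Er.E9e
import Pool.Agent.Helper46.Er.E3b
import Pool.Agent.Helper47.Er.E9a
import Pool.Agent.Helper47.Er.E9b
import Pool.Agent.Helper63.Er.E2a
import Pool.Agent.Helper64.Er.E9fMain
import Pool.Agent.Helper72.Er.E7
import Pool.Agent.Helper72.Er.E8
import Pool.Agent.Helper72.Lr.LR6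
import Pool.Agent.Helper80.Er.E3a
import Pool.Agent.Helper87.Er.E9d

/-!
# Linear regression of stationary waves: assembly (MP_6b977f_mp)
-/

set_option autoImplicit false
open MeasureTheory Filter Topology ProbabilityTheory
open scoped ContDiff ENNReal InnerProductSpace

namespace Pool.Agent.Helper26.Er

open Pool.Agent.W745.RW (lap W)
open Pool.Agent.N661.BR (MW J0 IsStationary lin meas_lin IsGaussianLaw QV KV Bal)
open Pool.Agent.Helper37.BC
open Pool.Agent.Helper26.Ip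
open Pool.Agent.Helper26.Lr
open Pool.Agent.Helper41.Ip (cmb cmb_coe)
open Complex (I)

noncomputable section

/-- **the Liouville theorem** -/
theorem prop4 : Prop4 := fun _ _ hu hmu hw hmw _ hb h =>
  Pool.Agent.Helper12.Er.proportional Pool.Agent.Helper63.Er.smooth_of_mean
    Pool.Agent.Helper38.Er.lap_of_mean
    Pool.Agent.Helper1.Er.mean_deriv Pool.Agent.Helper1.Er.fderiv_bound
    Pool.Agent.Helper80.Er.caccioppoli Pool.Agent.Helper46.Er.liouville hu hmu hw hmw hb h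

variable {μ : Measure MW} [IsProbabilityMeasure μ] {U : Set ℂ}

theorem prop_of_lin (hs : IsStationary μ) (h2 : Integrable (fun f : MW => f 0 ^ 2) μ)
    (hU : IsOpen U) (hne : U.Nonempty) (hR : LinearRegression U μ) :
    ∀ c ∈ values μ, ∃ l : ℂ, ∀ k ∈ values μ, D c k = l * (⟪c, k⟫_ℝ : ℝ) :=
  fun _ hc => D_prop prop4 hs h2 (cond1_lin hs h2 hU hne hR) hc

theorem iso_of_lin (hs : IsStationary μ) (h2 : Integrable (fun f : MW => f 0 ^ 2) μ)
    (hU : IsOpen U) (hne : U.Nonempty) (hR : LinearRegression U μ) : Iso μ :=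
  Pool.Agent.Helper72.Er.iso_of_prop hs h2 (prop_of_lin hs h2 hU hne hR)

/-- **linear regression is isotropy** -/
theorem lin_iff (hs : IsStationary μ) (h2 : Integrable (fun f : MW => f 0 ^ 2) μ)
    (hU : IsOpen U) (hne : U.Nonempty) : LinearRegression U μ ↔ IsIsotropic μ :=
  ⟨fun hR => (iso_iff hs h2).1 (iso_of_lin hs h2 hU hne hR), fun hi k w t _ h0 =>
    Pool.Agent.Helper72.Er.condExp_of_iso hs h2 ((iso_iff hs h2).2 hi) k w t h0⟩

theorem lin_of_gauss (hs : IsStationary μ) (h2 : Integrable (fun f : MW => f 0 ^ 2) μ)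
    (hG : IsGaussianLaw μ) : LinearRegression U μ := fun k w t _ h0 =>
  (Pool.Agent.Helper72.Lr.reg_of_gauss hs h2 hG k w t h0).1

theorem cmb_mem (hs : IsStationary μ) (h2 : Integrable (fun f : MW => f 0 ^ 2) μ) {k : ℕ}
    (w : Fin k → ℂ) (t : Fin k → ℝ) : cmb hs h2 w t ∈ values μ :=
  Submodule.sum_mem _ fun _ _ => Submodule.smul_mem _ _ (V_mem hs h2 _)

theorem V_ne_of (hs : IsStationary μ) (h2 : Integrable (fun f : MW => f 0 ^ 2) μ) {k : ℕ}
    (w : Fin k → ℂ) (t : Fin k → ℝ) (h : cmb hs h2 w t ≠ 0) : V hs h2 0 ≠ 0 :=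
  fun h0 => h (by
    have h1 : ∀ x, V hs h2 x = 0 := fun x => by
      rw [← norm_eq_zero, Pool.Agent.Helper72.Er.V_eq hs h2 x, h0, norm_zero]
    show ∑ j, t j • V hs h2 (w j) = 0
    simp [h1])

/-- **one constant conditional second moment** -/
theorem gauss_iff_one (hs : IsStationary μ) (h2 : Integrable (fun f : MW => f 0 ^ 2) μ)
    (hU : IsOpen U) (hne : U.Nonempty) {k : ℕ} (w : Fin k → ℂ) (t : Fin k → ℝ) (h0 : ∫ f : MW, f 0 * lin w t f ∂μ = 0)
    (hX : ∫ f : MW, lin w t f ^ 2 ∂μ ≠ 0) :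
    IsGaussianLaw μ ↔ LinearRegression U μ ∧ ConstantVariance μ (lin w t) := by
  constructor
  · exact fun hG => ⟨lin_of_gauss hs h2 hG,
      (Pool.Agent.Helper72.Lr.reg_of_gauss hs h2 hG k w t h0).2⟩
  · rintro ⟨hR, hv⟩
    have hx0 : cmb hs h2 w t ≠ 0 := fun h => hX (by rw [← nsq_cmb hs h2, h, norm_zero]; norm_num)
    have hp := prop_of_lin hs h2 hU hne hR
    have hi := iso_of_lin hs h2 hU hne hR
    exact Pool.Agent.Helper72.Er.gauss_of_var hs h2 hp hi
      (Pool.Agent.Helper72.Er.var_of_one hs h2 hp hi (cmb_mem hs h2 w t) hx0 (V_mem hs h2 0)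
        (V_ne_of hs h2 w t hx0) (cmb_perp hs h2 w t h0) (var_exp hs h2 w t hv))

/-- **quantum ergodic limits** -/
theorem gauss_of_lin (hs : IsStationary μ) (h2 : Integrable (fun f : MW => f 0 ^ 2) μ)
    (hcov : ∀ w w' : ℂ, ∫ f : MW, f w * f w' ∂μ = J0 ‖w - w'‖)
    (hQ : ∀ v : ℤ →₀ ℝ, Bal v → ∀ l : ℤ,
      ∫⁻ f : MW, ENNReal.ofReal (‖QV v l 1 f 0‖ ^ 2) ∂μ ≤ ENNReal.ofReal (KV v l))
    (hU : IsOpen U) (hne : U.Nonempty) (hR : LinearRegression U μ) : IsGaussianLaw μ := by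
  have hp := prop_of_lin hs h2 hU hne hR
  have hi := iso_of_lin hs h2 hU hne hR
  obtain ⟨a, ha, b, hb, ea, eb, ho⟩ := Pool.Agent.Helper47.Er.triple hs h2 hcov
  have hq := Pool.Agent.Helper47.Er.quart_le hQ
  have hx : ∀ i, (![V hs h2 0, a, b] : Fin 3 → Lp ℝ 2 μ) i ∈ values μ := by
    intro i
    fin_cases i
    · exact V_mem hs h2 0
    · exact ha
    · exact hb
  obtain ⟨q, hq1, hm⟩ := Pool.Agent.Helper87.Er.moments hi hx ho (by
    refine le_trans (le_of_eq ?_) hq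
    refine lintegral_congr_ae ?_
    filter_upwards [V_coe hs h2 0, ea, eb] with f h3 h4 h5
    show ENNReal.ofReal (((V hs h2 0) f ^ 2 - (a f ^ 2 + b f ^ 2) / 2) ^ 2) = _
    rw [h3, h4, h5])
  refine Pool.Agent.Helper72.Er.gauss_of_var hs h2 hp hi fun c hc => ?_
  obtain ⟨e, he, heo, hce⟩ := Pool.Agent.Helper38.Er.inf_dim hs h2 hcov 1 hc
  have he1 : ‖e 0‖ = 1 := heo.1 0
  refine ⟨e 0, he 0, fun h => ?_, hce 0, ?_⟩
  · rw [h, norm_zero] at he1
    exact zero_ne_one he1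
  · exact Pool.Agent.Helper64.Er.var_const hi hq1 hm hc
      (fun n => Pool.Agent.Helper38.Er.inf_dim hs h2 hcov n hc) (he 0) he1 (hce 0)

end

end Pool.Agent.Helper26.Er
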