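import Pool.Agent.Helper26.Er.Defs

/-!
# Linear regression of stationary waves: the Gaussian weight (MP_6b977f_mp)
-/

set_option autoImplicit false
open MeasureTheory

namespace Pool.Agent.Helper26.Er

noncomputable section

/-- the Gaussian weight on the plane -/
def gw (z : ℂ) : ℝ := 1 / Real.pi * Real.exp (-‖z‖ ^ 2)

end

end Pool.Agent.Helper26.Er
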