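import Pool.Agent.Helper26.Er.Asm
import Pool.Agent.Helper26.Er.Gw
import Pool.Agent.Helper43.Er.X12
import Pool.Agent.Helper33.Er.X5
import Pool.Agent.Helper83.Er.X4
import Pool.Agent.Helper26.Er.X3

/-!
# Linear regression of stationary waves: ergodic waves (MP_6b977f_mp)
-/

set_option autoImplicit false
open MeasureTheory Filter Topology ProbabilityTheory
open scoped ContDiff ENNReal InnerProductSpace

namespace Pool.Agent.Helper26.Er

open Pool.Agent.W745.RW (lap W)
open Pool.Agent.N661.BR (MW J0 IsStationary lin meas_lin IsGaussianLaw QV KV Bal IsErgodic cov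
  parallel)
open Pool.Agent.Helper37.BC
open Pool.Agent.Helper26.Ip
open Pool.Agent.Helper26.Lr
open Complex (I)

noncomputable section

variable {μ : Measure MW} [IsProbabilityMeasure μ] {U : Set ℂ}

theorem gauss_of_zero (hs : IsStationary μ) (h2 : Integrable (fun f : MW => f 0 ^ 2) μ)
    (hV : V hs h2 0 = 0) : IsGaussianLaw μ := by
  refine Pool.Agent.Helper33.Ip.gauss_of_ex hs h2 fun c _ k hk => ?_
  have h1 : ∀ x, V hs h2 x = 0 := fun x => by
    rw [← norm_eq_zero, Pool.Agent.Helper72.Er.V_eq hs h2 x, hV, norm_zero]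
  have h3 : k = 0 := by
    refine values_induction hs h2 (p := fun k => k = 0) ?_ h1 rfl ?_ ?_ hk
    · exact isClosed_singleton
    · intro a b ha hb
      rw [ha, hb, add_zero]
    · intro t a ha
      rw [ha, smul_zero]
  obtain ⟨T, hT⟩ := Pool.Agent.Helper41.Ip.exL_exists c
  rw [h3, ← hT, map_zero]

/-- **ergodic waves** -/
theorem gauss_of_erg
    (hs : IsStationary μ) (h2 : Integrable (fun f : MW => f 0 ^ 2) μ) (he : IsErgodic μ) {m : ℝ}
    {ν : Measure ℝ} [IsProbabilityMeasure ν] (hp : parallel ν = 0)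
    (hcov : ∀ w w' : ℂ, ∫ f : MW, f w * f w' ∂μ = m * cov ν (w - w'))
    (hU : IsOpen U) (hne : U.Nonempty) (hR : LinearRegression U μ) : IsGaussianLaw μ := by
  by_cases hV : V hs h2 0 = 0
  · exact gauss_of_zero hs h2 hV
  have hpr := prop_of_lin hs h2 hU hne hR
  have hi := iso_of_lin hs h2 hU hne hR
  exact Pool.Agent.Helper72.Er.gauss_of_var hs h2 hpr hi
    (Pool.Agent.Helper33.Er.var_erg hs h2 hi hV (Pool.Agent.Helper43.Er.sq_prod_int hs h2)
      (Pool.Agent.Helper26.Er.X3.erg_avg hs h2 he)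
      fun c hc => Pool.Agent.Helper83.Er.avg_cov hs h2 hcov hp hc)

end

end Pool.Agent.Helper26.Er
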