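import Pool.Agent.Helper26.Er.Asm
import Pool.Graph.R_pool_sql_team_seeded_63374d34.N163.BRBASE

/-!
# Linear regression of stationary waves: decorrelation of eigenfunctions (MP_6b977f_mp)
-/

set_option autoImplicit false
open MeasureTheory Filter Topology ProbabilityTheory
open scoped ContDiff ENNReal InnerProductSpace

namespace Pool.Agent.Helper26.Er

open Pool.Agent.W745.RW (lap W)
open Pool.Agent.N661.BR (MW J0 IsStationary lin meas_lin meas_eval IsGaussianLaw resc IsCutoff)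
open Pool.Agent.Helper37.BC
open Pool.Agent.Helper26.Ip
open Pool.Agent.Helper26.Lr
open Pool.Agent.Helper83.Ip (phi)
open Complex (I)

noncomputable section

section general

variable {α : Type*} [MeasurableSpace α] {ν : Measure α} [IsFiniteMeasure ν]

theorem int_e {b : α → ℝ} (hb : AEStronglyMeasurable b ν) :
    Integrable (fun x => Complex.exp (I * ((b x : ℝ) : ℂ))) ν := by
  refine (integrable_const (1 : ℝ)).mono' ?_ (Eventually.of_forall fun x => by rw [exp_one])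
  exact (Complex.continuous_exp.comp
    (continuous_const.mul Complex.continuous_ofReal)).comp_aestronglyMeasurable hb

theorem int_one_of_sq {a : α → ℝ} (ha : AEStronglyMeasurable a ν)
    (h2 : Integrable (fun x => a x ^ 2) ν) : Integrable a ν :=
  ((memLp_two_iff_integrable_sq ha).2 h2).integrable (by norm_num)

theorem int_ae {a b : α → ℝ} (ha : AEStronglyMeasurable a ν) (hb : AEStronglyMeasurable b ν)
    (h2 : Integrable (fun x => a x ^ 2) ν) :
    Integrable (fun x => (a x : ℂ) * Complex.exp (I * ((b x : ℝ) : ℂ))) ν := by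
  have h := (int_one_of_sq ha h2).ofReal (𝕜 := ℂ)
  refine h.mul_bdd (c := 1) ?_ (Eventually.of_forall fun x => by rw [exp_one])
  exact (int_e hb).aestronglyMeasurable

/-- the Taylor formula of order one -/
theorem taylor {a b : α → ℝ} (ha : AEStronglyMeasurable a ν) (hb : AEStronglyMeasurable b ν)
    (h2 : Integrable (fun x => a x ^ 2) ν) (s : ℝ) :
    ‖(∫ x, Complex.exp (I * ((s * a x + b x : ℝ) : ℂ)) ∂ν) -
      (∫ x, Complex.exp (I * ((b x : ℝ) : ℂ)) ∂ν) -
      I * s * ∫ x, (a x : ℂ) * Complex.exp (I * ((b x : ℝ) : ℂ)) ∂ν‖ ≤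
      2 * s ^ 2 * ∫ x, a x ^ 2 ∂ν := by
  have i1 := int_e (ν := ν) ((ha.const_mul s).add hb)
  have i2 := int_e (ν := ν) hb
  have i3 := (int_ae ha hb h2).const_mul (I * s)
  have i1' : Integrable (fun x => Complex.exp (I * ((s * a x + b x : ℝ) : ℂ))) ν := i1
  have i4 : Integrable (fun x => Complex.exp (I * ((s * a x + b x : ℝ) : ℂ)) -
      Complex.exp (I * ((b x : ℝ) : ℂ))) ν := i1'.sub i2
  rw [← integral_const_mul, ← integral_sub i1' i2, ← integral_sub i4 i3]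
  refine (norm_integral_le_integral_norm _).trans ?_
  rw [← integral_const_mul]
  refine integral_mono (i4.sub i3).norm (h2.const_mul _) fun x => ?_
  show ‖Complex.exp (I * ((s * a x + b x : ℝ) : ℂ)) - Complex.exp (I * ((b x : ℝ) : ℂ)) -
    I * s * ((a x : ℂ) * Complex.exp (I * ((b x : ℝ) : ℂ)))‖ ≤ 2 * s ^ 2 * a x ^ 2
  have e : Complex.exp (I * ((s * a x + b x : ℝ) : ℂ)) - Complex.exp (I * ((b x : ℝ) : ℂ)) -
      I * s * ((a x : ℂ) * Complex.exp (I * ((b x : ℝ) : ℂ))) =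
      Complex.exp (I * ((b x : ℝ) : ℂ)) * phi (s * a x) := by
    have e1 : Complex.exp (I * ((s * a x + b x : ℝ) : ℂ)) =
        Complex.exp (I * ((b x : ℝ) : ℂ)) * Complex.exp (I * ((s * a x : ℝ) : ℂ)) := by
      rw [← Complex.exp_add]
      congr 1
      push_cast
      ring
    rw [e1]
    unfold phi
    push_cast
    ring
  rw [e, norm_mul, exp_one, one_mul]
  refine (Pool.Agent.Helper72.Er.phi_sq _).trans (le_of_eq ?_)
  ring

end general

/-- convergence of the derivatives -/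
theorem lim_deriv {A0 B : ℕ → ℂ} {A : ℕ → ℝ → ℂ} {a0 b : ℂ} {a : ℝ → ℂ} {C : ℝ} (hC : 0 ≤ C)
    (h0 : Tendsto A0 atTop (𝓝 a0)) (hs : ∀ s : ℝ, Tendsto (fun n => A n s) atTop (𝓝 (a s)))
    (hA : ∀ n s, ‖A n s - A0 n - I * s * B n‖ ≤ C * s ^ 2)
    (ha : ∀ s, ‖a s - a0 - I * s * b‖ ≤ C * s ^ 2) : Tendsto B atTop (𝓝 b) := by
  rw [Metric.tendsto_atTop]
  intro ε hε
  obtain ⟨s, hs0, hsC⟩ : ∃ s : ℝ, 0 < s ∧ 2 * C * s < ε / 2 := by
    refine ⟨ε / (4 * C + 4), by positivity, ?_⟩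
    rw [mul_div_assoc', div_lt_div_iff₀ (by positivity) (by norm_num)]
    nlinarith
  have e1 := (Metric.tendsto_atTop.1 h0) (s * (ε / 4)) (by positivity)
  have e2 := (Metric.tendsto_atTop.1 (hs s)) (s * (ε / 4)) (by positivity)
  obtain ⟨N1, hN1⟩ := e1
  obtain ⟨N2, hN2⟩ := e2
  refine ⟨max N1 N2, fun n hn => ?_⟩
  have g1 := hN1 n (le_of_max_le_left hn)
  have g2 := hN2 n (le_of_max_le_right hn)
  rw [dist_eq_norm] at g1 g2 ⊢
  have e : I * s * (B n - b) = (A n s - a s) - (A0 n - a0) - (A n s - A0 n - I * s * B n) +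
      (a s - a0 - I * s * b) := by ring
  have h1 : ‖I * s * (B n - b)‖ = s * ‖B n - b‖ := by
    rw [norm_mul, norm_mul, Complex.norm_I, one_mul, Complex.norm_real, Real.norm_eq_abs,
      abs_of_pos hs0]
  have h2 : s * ‖B n - b‖ ≤ ‖A n s - a s‖ + ‖A0 n - a0‖ + C * s ^ 2 + C * s ^ 2 := by
    rw [← h1, e]
    refine (norm_add_le _ _).trans (add_le_add ?_ (ha s))
    refine (norm_sub_le _ _).trans (add_le_add ?_ (hA n s))
    exact norm_sub_le _ _
  have h3 : s * ‖B n - b‖ < s * ε := by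
    have : s * (2 * C * s) < s * (ε / 2) := mul_lt_mul_of_pos_left hsC hs0
    nlinarith
  exact lt_of_mul_lt_mul_left h3 hs0.le

section limit

variable {Ω : Set ℂ} {lam : ℕ → ℝ} {u : ℕ → ℂ → ℝ} {χ : ℝ → ℝ} {μ : Measure MW}
  [IsProbabilityMeasure μ] {σ : ℕ → ℕ} {U : Set ℂ}

theorem resc_zero (hχ : IsCutoff χ) (Ω : Set ℂ) (l : ℝ) (v : ℂ → ℝ) (z : ℂ) :
    resc χ Ω l v z 0 = v z := by
  obtain ⟨δ, hδ, h⟩ := hχ.one
  unfold resc
  rw [norm_zero, zero_div, zero_div, add_zero, h 0 le_rfl hδ.le, mul_one]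

/-- the limit of the correlations of `u` with `exp (i X)` -/
theorem lim_corr (hΩ : IsOpen Ω) (hb : Bornology.IsBounded Ω) (hne : Ω.Nonempty)
    (hpos : ∀ n, 0 < lam n) (hu : ∀ n, ContDiffOn ℝ ∞ (u n) Ω) (hχ : IsCutoff χ)
    {C : ℝ} (hint : ∀ n, IntegrableOn (fun z => u n z ^ 2) Ω)
    (hC : ∀ n, ∫ z in Ω, u n z ^ 2 ≤ C) (h2 : Integrable (fun f : MW => f 0 ^ 2) μ)
    (hμ : IsLimitAlong χ Ω lam u σ μ) (k : ℕ) (w : Fin k → ℂ) (t : Fin k → ℝ) :
    Tendsto (fun n => (1 / volume.real Ω : ℝ) * ∫ z in Ω, (u (σ n) z : ℂ) *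
      Complex.exp (I * ((∑ j, t j * resc χ Ω (lam (σ n)) (u (σ n)) z (w j) : ℝ) : ℂ))) atTop
      (𝓝 (∫ f : MW, (f 0 : ℂ) * Complex.exp (I * (lin w t f : ℝ)) ∂μ)) := by
  have hfin : volume Ω ≠ ⊤ := hb.measure_lt_top.ne
  have hV : 0 < volume.real Ω := ENNReal.toReal_pos (hΩ.measure_pos volume hne).ne' hfin
  have : IsFiniteMeasure (volume.restrict Ω) := ⟨by rw [Measure.restrict_apply_univ]; exact hfin.lt_top⟩
  have hC0 : 0 ≤ C := (integral_nonneg fun z => sq_nonneg _).trans (hC 0)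
  have hE0 : 0 ≤ ∫ f : MW, f 0 ^ 2 ∂μ := integral_nonneg fun f => sq_nonneg _
  obtain ⟨K, hK⟩ : ∃ K : ℝ, K = 2 * (1 / volume.real Ω * C + ∫ f : MW, f 0 ^ 2 ∂μ) := ⟨_, rfl⟩
  have hK0 : 0 ≤ K := by rw [hK]; positivity
  have mX : ∀ n, AEStronglyMeasurable (fun z => ∑ j, t j * resc χ Ω (lam n) (u n) z (w j))
      (volume.restrict Ω) := fun n => Finset.aestronglyMeasurable_fun_sum _ fun j _ =>
    (Pool.Agent.N163.BR.resc_meas hΩ hb hχ (hpos n) (hu n).continuousOn (w j)).const_mul _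
  have mu : ∀ n, AEStronglyMeasurable (u n) (volume.restrict Ω) := fun n =>
    (hu n).continuousOn.aestronglyMeasurable hΩ.measurableSet
  -- the sums with one more point
  have key : ∀ (s : ℝ) (n : ℕ) (z : ℂ),
      ∑ j, (Fin.cons s t : Fin (k + 1) → ℝ) j *
        resc χ Ω (lam n) (u n) z ((Fin.cons 0 w : Fin (k + 1) → ℂ) j) =
      s * u n z + ∑ j, t j * resc χ Ω (lam n) (u n) z (w j) := by
    intro s n z
    rw [Fin.sum_univ_succ]
    simp only [Fin.cons_zero, Fin.cons_succ, resc_zero hχ]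
  have key2 : ∀ (s : ℝ) (f : MW), lin (Fin.cons 0 w : Fin (k + 1) → ℂ)
      (Fin.cons s t : Fin (k + 1) → ℝ) f = s * f 0 + lin w t f := by
    intro s f
    unfold lin
    rw [Fin.sum_univ_succ]
    simp only [Fin.cons_zero, Fin.cons_succ]
  refine lim_deriv (C := K) hK0
    (A0 := fun n => (1 / volume.real Ω : ℝ) * ∫ z in Ω,
      Complex.exp (I * ((∑ j, t j * resc χ Ω (lam (σ n)) (u (σ n)) z (w j) : ℝ) : ℂ)))
    (A := fun n s => (1 / volume.real Ω : ℝ) * ∫ z in Ω, Complex.exp (I * ((s * u (σ n) z +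
      ∑ j, t j * resc χ Ω (lam (σ n)) (u (σ n)) z (w j) : ℝ) : ℂ)))
    (a0 := ∫ f, Complex.exp (I * (lin w t f : ℝ)) ∂μ)
    (a := fun s => ∫ f : MW, Complex.exp (I * ((s * f 0 + lin w t f : ℝ) : ℂ)) ∂μ)
    (hμ.2 k w t) (fun s => ?_) (fun n s => ?_) fun s => ?_
  · have h := hμ.2 (k + 1) (Fin.cons 0 w) (Fin.cons s t)
    simp only [key, key2] at h
    exact h
  · have h := taylor (mu (σ n)) (mX (σ n)) (hint (σ n)) s
    have e : ((1 / volume.real Ω : ℝ) : ℂ) * (∫ z in Ω, Complex.exp (I * ((s * u (σ n) z +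
        ∑ j, t j * resc χ Ω (lam (σ n)) (u (σ n)) z (w j) : ℝ) : ℂ))) -
        ((1 / volume.real Ω : ℝ) : ℂ) * (∫ z in Ω,
        Complex.exp (I * ((∑ j, t j * resc χ Ω (lam (σ n)) (u (σ n)) z (w j) : ℝ) : ℂ))) -
        I * s * (((1 / volume.real Ω : ℝ) : ℂ) * ∫ z in Ω, (u (σ n) z : ℂ) *
        Complex.exp (I * ((∑ j, t j * resc χ Ω (lam (σ n)) (u (σ n)) z (w j) : ℝ) : ℂ))) =
        ((1 / volume.real Ω : ℝ) : ℂ) * ((∫ z in Ω, Complex.exp (I * ((s * u (σ n) z +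
        ∑ j, t j * resc χ Ω (lam (σ n)) (u (σ n)) z (w j) : ℝ) : ℂ))) - (∫ z in Ω,
        Complex.exp (I * ((∑ j, t j * resc χ Ω (lam (σ n)) (u (σ n)) z (w j) : ℝ) : ℂ))) -
        I * s * ∫ z in Ω, (u (σ n) z : ℂ) *
        Complex.exp (I * ((∑ j, t j * resc χ Ω (lam (σ n)) (u (σ n)) z (w j) : ℝ) : ℂ))) := by
      ring
    show ‖((1 / volume.real Ω : ℝ) : ℂ) * _ - ((1 / volume.real Ω : ℝ) : ℂ) * _ -
      I * s * (((1 / volume.real Ω : ℝ) : ℂ) * _)‖ ≤ _
    rw [e, norm_mul, Complex.norm_real, Real.norm_eq_abs, abs_of_nonneg (by positivity)]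
    calc 1 / volume.real Ω * _ ≤ 1 / volume.real Ω * (2 * s ^ 2 * ∫ z in Ω, u (σ n) z ^ 2) :=
          mul_le_mul_of_nonneg_left h (by positivity)
      _ ≤ 1 / volume.real Ω * (2 * s ^ 2 * C) := by
          have := hC (σ n)
          gcongr
      _ ≤ K * s ^ 2 := by
          rw [hK]
          nlinarith [mul_nonneg hE0 (sq_nonneg s)]
  · have h := taylor (ν := μ) (a := fun f : MW => f 0) (b := lin w t)
      (meas_eval 0).aestronglyMeasurable (meas_lin w t).aestronglyMeasurable h2 s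
    refine h.trans ?_
    rw [hK]
    have : 0 ≤ 1 / volume.real Ω * C := by positivity
    nlinarith [mul_nonneg this (sq_nonneg s)]

/-- the correlation of `f 0` with a linear combination -/
theorem corr_lin (hs : IsStationary μ) (h2 : Integrable (fun f : MW => f 0 ^ 2) μ)
    (hcov : ∀ w w' : ℂ, ∫ f : MW, f w * f w' ∂μ = J0 ‖w - w'‖) {k : ℕ} (w : Fin k → ℂ)
    (t : Fin k → ℝ) : ∫ f : MW, f 0 * lin w t f ∂μ = ∑ j, t j * J0 ‖w j‖ := by
  have e : ∀ f : MW, f 0 * lin w t f = ∑ j, t j * (f 0 * f (w j)) := by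
    intro f
    unfold lin
    rw [Finset.mul_sum]
    exact Finset.sum_congr rfl fun j _ => by ring
  have hi : ∀ j, Integrable (fun f : MW => t j * (f 0 * f (w j))) μ := fun j =>
    ((eval_two hs h2 0).integrable_mul (eval_two hs h2 (w j))).const_mul (t j)
  simp only [e]
  rw [integral_finsetSum _ fun j _ => hi j]
  refine Finset.sum_congr rfl fun j _ => ?_
  rw [integral_const_mul, hcov, zero_sub, norm_neg]

/-- **linear regression and decorrelation** -/
theorem dec_iff (hΩ : IsOpen Ω) (hb : Bornology.IsBounded Ω) (hne : Ω.Nonempty)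
    (hpos : ∀ n, 0 < lam n) (hu : ∀ n, ContDiffOn ℝ ∞ (u n) Ω) (hχ : IsCutoff χ)
    {C : ℝ} (hint : ∀ n, IntegrableOn (fun z => u n z ^ 2) Ω)
    (hC : ∀ n, ∫ z in Ω, u n z ^ 2 ≤ C) (hs : IsStationary μ)
    (h2 : Integrable (fun f : MW => f 0 ^ 2) μ)
    (hcov : ∀ w w' : ℂ, ∫ f : MW, f w * f w' ∂μ = J0 ‖w - w'‖)
    (hμ : IsLimitAlong χ Ω lam u σ μ) :
    LinearRegression U μ ↔ Decorrelates U χ Ω lam u σ := by
  have hlim := lim_corr hΩ hb hne hpos hu hχ hint hC h2 hμ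
  constructor
  · intro hR k w t hw h0
    have h := hlim k w t
    rwa [lin_exp hs h2 hR k w t hw (by rw [corr_lin hs h2 hcov, h0])] at h
  · intro hD k w t hw h0
    rw [corr_lin hs h2 hcov] at h0
    refine Pool.Agent.Helper72.Er.condExp_of_char ((eval_two hs h2 0).integrable (by norm_num))
      (meas_eval 0) (meas_lin w t) fun τ => ?_
    have h1 := hD k w (fun j => τ * t j) hw (by
      have : ∑ j, τ * t j * J0 ‖w j‖ = τ * ∑ j, t j * J0 ‖w j‖ := by
        rw [Finset.mul_sum]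
        exact Finset.sum_congr rfl fun j _ => by ring
      rw [this, h0, mul_zero])
    have h3 := tendsto_nhds_unique (hlim k w fun j => τ * t j) h1
    refine Eq.trans ?_ h3
    refine integral_congr_ae (Eventually.of_forall fun f => ?_)
    have e : lin w (fun j => τ * t j) f = τ * lin w t f := by
      unfold lin
      rw [Finset.mul_sum]
      exact Finset.sum_congr rfl fun j _ => by ring
    simp only [e]

end limit

end

end Pool.Agent.Helper26.Er
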