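import Pool.Agent.Helper26.Lr.Cond
import Pool.Agent.Helper26.Ip.Lip

/-!
# Linear regression of stationary waves: auxiliary definitions (MP_6b977f_mp)
-/

set_option autoImplicit false
open MeasureTheory Filter Topology ProbabilityTheory
open scoped ContDiff ENNReal InnerProductSpace

namespace Pool.Agent.Helper26.Er

open Pool.Agent.N661.BR (MW)
open Pool.Agent.Helper26.Ip
open Complex (I)

noncomputable section

/-- the square of the gradient -/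
def g2 (ζ : ℂ → ℝ) (z : ℂ) : ℝ := (fderiv ℝ ζ z 1) ^ 2 + (fderiv ℝ ζ z I) ^ 2

/-- `|u ∇w - w ∇u|² / u²` (`0` where `u = 0`) -/
def GG (u w : ℂ → ℝ) (z : ℂ) : ℝ :=
  ((u z * fderiv ℝ w z 1 - w z * fderiv ℝ u z 1) ^ 2 +
    (u z * fderiv ℝ w z I - w z * fderiv ℝ u z I) ^ 2) / (u z) ^ 2

/-- `E[k exp (i c)]` -/
def D {Ω : Type*} [MeasurableSpace Ω] {μ : Measure Ω} (c k : Lp ℝ 2 μ) : ℂ :=
  ∫ f, (k f : ℂ) * Complex.exp (I * ((c f : ℝ) : ℂ)) ∂μ

/-- isotropy in `H` -/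
def Iso (μ : Measure MW) : Prop := ∀ c ∈ values μ, ∀ c' ∈ values μ, ‖c‖ = ‖c'‖ → ch c = ch c'

end

end Pool.Agent.Helper26.Er
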