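import Pool.Agent.Helper26.Lr.Defs

/-!
# Linear regression of stationary waves: definitions (MP_6b977f_mp)
-/

set_option autoImplicit false
open MeasureTheory Filter Topology ProbabilityTheory
open scoped ContDiff ENNReal

namespace Pool.Agent.Helper26.Er

open Pool.Agent.N661.BR (MW lin J0 resc)
open Pool.Agent.Helper26.Lr
open Complex (I)

noncomputable section

/-- the regression of one value on one linear combination of values in `U` is linear: for every
finite linear combination `X = ∑ t j f (w j)` of values at points `w j ∈ U` which is uncorrelated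
with `f 0`, the conditional mean of `f 0` given `X` is `0` -/
def LinearRegression (U : Set ℂ) (μ : Measure MW) : Prop :=
  ∀ (k : ℕ) (w : Fin k → ℂ) (t : Fin k → ℝ), (∀ j, w j ∈ U) → ∫ f : MW, f 0 * lin w t f ∂μ = 0 →
    μ[fun f : MW => f 0 | sig (lin w t)] =ᵐ[μ] fun _ => 0

/-- the law of a finite linear combination of values depends only on its second moment -/
def IsIsotropic (μ : Measure MW) : Prop :=
  ∀ (k : ℕ) (w : Fin k → ℂ) (t : Fin k → ℝ) (k' : ℕ) (w' : Fin k' → ℂ) (t' : Fin k' → ℝ),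
    ∫ f : MW, lin w t f ^ 2 ∂μ = ∫ f : MW, lin w' t' f ^ 2 ∂μ →
      μ.map (lin w t) = μ.map (lin w' t')

/-- the conditional second moment of `f 0` given `X` is the constant `E f(0)²` -/
def ConstantVariance (μ : Measure MW) (X : MW → ℝ) : Prop :=
  μ[fun f : MW => f 0 ^ 2 | sig X] =ᵐ[μ] fun _ => ∫ g : MW, g 0 ^ 2 ∂μ

/-- there is a finite linear combination `X` of values, not zero and uncorrelated with `f 0`, such
that the conditional second moment of `f 0` given `X` is constant -/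
def HasConstantVariance (μ : Measure MW) : Prop :=
  ∃ (k : ℕ) (w : Fin k → ℂ) (t : Fin k → ℝ), ∫ f : MW, f 0 * lin w t f ∂μ = 0 ∧
    ∫ f : MW, lin w t f ^ 2 ∂μ ≠ 0 ∧ ConstantVariance μ (lin w t)

/-- `μ` is the limit of the local measures along the subsequence `σ` (so `IsLocalLimit χ Ω lam u μ`
says that this holds for some `σ`) -/
def IsLimitAlong (χ : ℝ → ℝ) (Ω : Set ℂ) (lam : ℕ → ℝ) (u : ℕ → ℂ → ℝ) (σ : ℕ → ℕ)
    (μ : Measure MW) : Prop :=
  StrictMono σ ∧ ∀ (k : ℕ) (w : Fin k → ℂ) (t : Fin k → ℝ),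
    Tendsto (fun n => (1 / volume.real Ω : ℝ) * ∫ z in Ω,
      Complex.exp (I * ((∑ j, t j * resc χ Ω (lam (σ n)) (u (σ n)) z (w j) : ℝ) : ℂ))) atTop
      (𝓝 (∫ f, Complex.exp (I * (lin w t f : ℝ)) ∂μ))

/-- `u (σ n)` is asymptotically orthogonal to `exp (i X)`, for every finite linear combination
`X = ∑ t j u (z + λ^{-1/2} w j)` with `w j ∈ U` (with cutoff near the boundary, see `resc`) which is
uncorrelated with `u (z)` for the covariance `J₀` of the random wave -/
def Decorrelates (U : Set ℂ) (χ : ℝ → ℝ) (Ω : Set ℂ) (lam : ℕ → ℝ) (u : ℕ → ℂ → ℝ)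
    (σ : ℕ → ℕ) : Prop :=
  ∀ (k : ℕ) (w : Fin k → ℂ) (t : Fin k → ℝ), (∀ j, w j ∈ U) → ∑ j, t j * J0 ‖w j‖ = 0 →
    Tendsto (fun n => (1 / volume.real Ω : ℝ) * ∫ z in Ω, (u (σ n) z : ℂ) *
      Complex.exp (I * ((∑ j, t j * resc χ Ω (lam (σ n)) (u (σ n)) z (w j) : ℝ) : ℂ))) atTop (𝓝 0)

end

end Pool.Agent.Helper26.Er
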