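import Pool.Agent.Helper26.Er.Defs
import Pool.Agent.Helper26.Ip.Asm

/-!
# Linear regression: statements of the packages (not imported by the hand-in)
-/

set_option autoImplicit false
set_option linter.unusedSectionVars false
open MeasureTheory Filter Topology ProbabilityTheory
open scoped ContDiff ENNReal InnerProductSpace

namespace Pool.Agent.Helper26.Er.Stm

open Pool.Agent.W745.RW (lap W)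
open Pool.Agent.N661.BR (MW J0 IsStationary shift meas_eval meas_shift IsGaussianLaw lin meas_lin
  QV KV Bal)
open Pool.Agent.Helper37.BC
open Pool.Agent.Helper26.Ip
open Pool.Agent.Helper26.Lr
open Pool.Agent.Helper26.Er
open Complex (I)

noncomputable section

/-! ## analysis -/

/-- E2a -/
theorem smooth_of_mean {u : ℂ → ℝ} (hu : Continuous u) (hm : MeanValue u) : ContDiff ℝ ∞ u := sorry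
/-- E2b -/
theorem lap_of_mean {u : ℂ → ℝ} (hu : ContDiff ℝ ∞ u) (hm : MeanValue u) (z : ℂ) :
    lap u z = - u z := sorry
/-- E2c -/
theorem mean_deriv {u : ℂ → ℝ} (hu : ContDiff ℝ ∞ u) (hm : MeanValue u) (e : ℂ) :
    MeanValue (fun z => fderiv ℝ u z e) := sorry
/-- E2d -/
theorem fderiv_bound : ∃ C : ℝ, 0 ≤ C ∧ ∀ (u : ℂ → ℝ), ContDiff ℝ ∞ u → MeanValue u → ∀ M : ℝ,
    (∀ z, |u z| ≤ M) → ∀ z, ‖fderiv ℝ u z‖ ≤ C * M := sorry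

/-- E3a -/
theorem caccioppoli {u w : ℂ → ℝ} (hu : ContDiff ℝ ∞ u) (hw : ContDiff ℝ ∞ w)
    (eu : ∀ z, lap u z = - u z) (ew : ∀ z, lap w z = - w z) (h : ∀ z, |w z| ≤ |u z|)
    {ζ : ℂ → ℝ} (hζ : ContDiff ℝ ∞ ζ) (hc : HasCompactSupport ζ) :
    ∫ z, ζ z ^ 2 * GG u w z ≤ 2 * ∫ z, |ζ z| * |w z| * √(GG u w z) * √(g2 ζ z) := sorry
/-- E3b -/
theorem liouville {u w : ℂ → ℝ} (hu : ContDiff ℝ ∞ u) (hw : ContDiff ℝ ∞ w) {M : ℝ}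
    (bu : ∀ z, |u z| ≤ M) (bdu : ∀ z, ‖fderiv ℝ u z‖ ≤ M) (bdw : ∀ z, ‖fderiv ℝ w z‖ ≤ M)
    (h : ∀ z, |w z| ≤ |u z|)
    (hcac : ∀ ζ : ℂ → ℝ, ContDiff ℝ ∞ ζ → HasCompactSupport ζ →
      ∫ z, ζ z ^ 2 * GG u w z ≤ 2 * ∫ z, |ζ z| * |w z| * √(GG u w z) * √(g2 ζ z)) :
    ∀ z v, u z * fderiv ℝ w z v = w z * fderiv ℝ u z v := sorry
/-- E4a -/
theorem unique_cont {w : ℂ → ℝ} (hw : ContDiff ℝ ∞ w) (hm : MeanValue w) {M : ℝ}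
    (hb : ∀ z, |w z| ≤ M) {z₀ : ℂ} {δ : ℝ} (hδ : 0 < δ) (h0 : ∀ z ∈ Metric.ball z₀ δ, w z = 0) :
    ∀ z, w z = 0 := sorry
/-- E4b -/
theorem proportional {u w : ℂ → ℝ} (hu : Continuous u) (hmu : MeanValue u) (hw : Continuous w)
    (hmw : MeanValue w) {M : ℝ} (hb : ∀ z, |u z| ≤ M) (h : ∀ z, |w z| ≤ |u z|) :
    ∃ l : ℝ, ∀ z, w z = l * u z := sorry

/-! ## the characteristic functional -/

variable {μ : Measure MW} [IsProbabilityMeasure μ]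

/-- E1 -/
theorem D_le (hs : IsStationary μ) (h2 : Integrable (fun f : MW => f 0 ^ 2) μ)
    (h1 : Cond1 hs h2) {c : Lp ℝ 2 μ} (hc : c ∈ values μ) (x : ℂ) :
    ‖D c (V hs h2 x)‖ ≤ |⟪V hs h2 x, c⟫_ℝ| := sorry
/-- E5 (from E1, E4b) -/
theorem D_prop (hs : IsStationary μ) (h2 : Integrable (fun f : MW => f 0 ^ 2) μ)
    (h1 : Cond1 hs h2) {c : Lp ℝ 2 μ} (hc : c ∈ values μ) :
    ∃ l : ℂ, ∀ k ∈ values μ, D c k = l * (⟪c, k⟫_ℝ : ℝ) := sorry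
/-- E6 -/
theorem iso_of_prop (hs : IsStationary μ) (h2 : Integrable (fun f : MW => f 0 ^ 2) μ)
    (h : ∀ c ∈ values μ, ∃ l : ℂ, ∀ k ∈ values μ, D c k = l * (⟪c, k⟫_ℝ : ℝ)) : Iso μ := sorry
/-- E7 -/
theorem condExp_of_iso (hs : IsStationary μ) (h2 : Integrable (fun f : MW => f 0 ^ 2) μ)
    (h : Iso μ) (k : ℕ) (w : Fin k → ℂ) (t : Fin k → ℝ) (h0 : ∫ f : MW, f 0 * lin w t f ∂μ = 0) :
    μ[fun f : MW => f 0 | sig (lin w t)] =ᵐ[μ] (fun _ => 0) := sorry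
/-- E8a -/
theorem gauss_of_var (hs : IsStationary μ) (h2 : Integrable (fun f : MW => f 0 ^ 2) μ)
    (h : ∀ c ∈ values μ, ∃ l : ℂ, ∀ k ∈ values μ, D c k = l * (⟪c, k⟫_ℝ : ℝ)) (hi : Iso μ)
    (hv : ∀ c ∈ values μ, ∃ k ∈ values μ, k ≠ 0 ∧ ⟪c, k⟫_ℝ = 0 ∧
      ∫ f, ((k f ^ 2 : ℝ) : ℂ) * Complex.exp (I * ((c f : ℝ) : ℂ)) ∂μ = (‖k‖ ^ 2 : ℝ) * ch c) :
    IsGaussianLaw μ := sorry
/-- E8b: one variance -/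
theorem var_of_one (hs : IsStationary μ) (h2 : Integrable (fun f : MW => f 0 ^ 2) μ)
    (h : ∀ c ∈ values μ, ∃ l : ℂ, ∀ k ∈ values μ, D c k = l * (⟪c, k⟫_ℝ : ℝ)) (hi : Iso μ)
    {x k : Lp ℝ 2 μ} (hx : x ∈ values μ) (hx0 : x ≠ 0) (hk : k ∈ values μ) (hk0 : k ≠ 0)
    (hxk : ⟪x, k⟫_ℝ = 0)
    (h1 : ∀ s : ℝ, ∫ f, ((k f ^ 2 : ℝ) : ℂ) *
      Complex.exp (I * (((s • x : Lp ℝ 2 μ) f : ℝ) : ℂ)) ∂μ = (‖k‖ ^ 2 : ℝ) * ch (s • x)) :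
    ∀ c ∈ values μ, ∃ k ∈ values μ, k ≠ 0 ∧ ⟪c, k⟫_ℝ = 0 ∧
      ∫ f, ((k f ^ 2 : ℝ) : ℂ) * Complex.exp (I * ((c f : ℝ) : ℂ)) ∂μ = (‖k‖ ^ 2 : ℝ) * ch c := sorry

/-! ## quantum ergodicity -/

/-- E9a -/
theorem triple (hs : IsStationary μ) (h2 : Integrable (fun f : MW => f 0 ^ 2) μ)
    (hcov : ∀ w w' : ℂ, ∫ f : MW, f w * f w' ∂μ = J0 ‖w - w'‖) :
    ∃ a ∈ values μ, ∃ b ∈ values μ, (a =ᵐ[μ] fun f : MW => √2 * (W 1 f 2 0).re) ∧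
      (b =ᵐ[μ] fun f : MW => √2 * (W 1 f 2 0).im) ∧ Orthonormal ℝ ![V hs h2 0, a, b] := sorry
/-- E9b -/
theorem quart_le (hQ : ∀ v : ℤ →₀ ℝ, Bal v → ∀ l : ℤ,
      ∫⁻ f : MW, ENNReal.ofReal (‖QV v l 1 f 0‖ ^ 2) ∂μ ≤ ENNReal.ofReal (KV v l)) :
    ∫⁻ f : MW, ENNReal.ofReal ((f 0 ^ 2 - ((√2 * (W 1 f 2 0).re) ^ 2 +
      (√2 * (W 1 f 2 0).im) ^ 2) / 2) ^ 2) ∂μ ≤ 3 := sorry
/-- E9c -/
theorem law_eq (hi : Iso μ) {n : ℕ} {a b : Fin n → Lp ℝ 2 μ} (ha : ∀ i, a i ∈ values μ)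
    (hb : ∀ i, b i ∈ values μ) (hab : ∀ i j, ⟪a i, a j⟫_ℝ = ⟪b i, b j⟫_ℝ)
    {F : (Fin n → ℝ) → ℝ≥0∞} (hF : Measurable F) :
    ∫⁻ f, F (fun i => a i f) ∂μ = ∫⁻ f, F (fun i => b i f) ∂μ := sorry
/-- E9d (uses E9c) -/
theorem moments (hi : Iso μ) {x : Fin 3 → Lp ℝ 2 μ} (hx : ∀ i, x i ∈ values μ)
    (ho : Orthonormal ℝ x)
    (h : ∫⁻ f, ENNReal.ofReal ((x 0 f ^ 2 - (x 1 f ^ 2 + x 2 f ^ 2) / 2) ^ 2) ∂μ ≤ 3) :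
    ∃ q : ℝ, q ≤ 1 ∧ ∀ a ∈ values μ, ∀ b ∈ values μ, Orthonormal ℝ ![a, b] →
      Integrable (fun f => a f ^ 4) μ ∧ Integrable (fun f => a f ^ 2 * b f ^ 2) μ ∧
      ∫ f, a f ^ 4 ∂μ = 3 * q ∧ ∫ f, a f ^ 2 * b f ^ 2 ∂μ = q := sorry
/-- E9e -/
theorem inf_dim (hs : IsStationary μ) (h2 : Integrable (fun f : MW => f 0 ^ 2) μ)
    (hcov : ∀ w w' : ℂ, ∫ f : MW, f w * f w' ∂μ = J0 ‖w - w'‖) (n : ℕ) {c : Lp ℝ 2 μ}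
    (hc : c ∈ values μ) :
    ∃ e : Fin n → Lp ℝ 2 μ, (∀ i, e i ∈ values μ) ∧ Orthonormal ℝ e ∧ ∀ i, ⟪c, e i⟫_ℝ = 0 := sorry
/-- E9f (uses E9c) -/
theorem var_const (hi : Iso μ) {q : ℝ} (hq : q ≤ 1)
    (hm : ∀ a ∈ values μ, ∀ b ∈ values μ, Orthonormal ℝ ![a, b] →
      Integrable (fun f => a f ^ 4) μ ∧ Integrable (fun f => a f ^ 2 * b f ^ 2) μ ∧
      ∫ f, a f ^ 4 ∂μ = 3 * q ∧ ∫ f, a f ^ 2 * b f ^ 2 ∂μ = q)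
    {c : Lp ℝ 2 μ} (hc : c ∈ values μ)
    (hd : ∀ n : ℕ, ∃ e : Fin n → Lp ℝ 2 μ, (∀ i, e i ∈ values μ) ∧ Orthonormal ℝ e ∧
      ∀ i, ⟪c, e i⟫_ℝ = 0) {k : Lp ℝ 2 μ} (hk : k ∈ values μ) (hk1 : ‖k‖ = 1)
    (hck : ⟪c, k⟫_ℝ = 0) :
    ∫ f, ((k f ^ 2 : ℝ) : ℂ) * Complex.exp (I * ((c f : ℝ) : ℂ)) ∂μ = (‖k‖ ^ 2 : ℝ) * ch c := sorry

end

end Pool.Agent.Helper26.Er.Stm
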