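import Pool.Agent.Helper26.Er.Gw
import Pool.Agent.Helper26.Ip.Asm

/-!
# Linear regression: statements of the packages X (not imported by the hand-in)
-/

set_option autoImplicit false
set_option linter.unusedSectionVars false
open MeasureTheory Filter Topology ProbabilityTheory
open scoped ContDiff ENNReal InnerProductSpace

namespace Pool.Agent.Helper26.Er.Stm2

open Pool.Agent.N661.BR (MW J0 IsStationary shift meas_eval meas_shift IsGaussianLaw lin meas_lin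
  IsErgodic cov parallel)
open Pool.Agent.Helper37.BC
open Pool.Agent.Helper26.Ip
open Pool.Agent.Helper26.Lr
open Pool.Agent.Helper26.Er
open Complex (I)

noncomputable section

variable {μ : Measure MW} [IsProbabilityMeasure μ]

/-- X1 -/
theorem gw_int : Integrable gw ∧ ∫ z, gw z = 1 := sorry
/-- X2 -/
theorem sq_prod_int (hs : IsStationary μ) (h2 : Integrable (fun f : MW => f 0 ^ 2) μ) (t : ℝ) :
    Integrable (fun p : MW × ℂ => gw p.2 * p.1 ((t : ℂ) * p.2) ^ 2) (μ.prod volume) := sorry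
/-- X3: the mean ergodic theorem for `f(0)²` -/
theorem erg_avg (hs : IsStationary μ) (h2 : Integrable (fun f : MW => f 0 ^ 2) μ)
    (he : IsErgodic μ) : Tendsto (fun t : ℝ => ∫ f : MW,
      |(∫ z, gw z * f ((t : ℂ) * z) ^ 2) - ∫ g : MW, g 0 ^ 2 ∂μ| ∂μ) atTop (𝓝 0) := sorry
/-- X4: Wiener -/
theorem avg_cov (hs : IsStationary μ) (h2 : Integrable (fun f : MW => f 0 ^ 2) μ) {m : ℝ}
    {ν : Measure ℝ} [IsProbabilityMeasure ν]
    (hcov : ∀ w w' : ℂ, ∫ f : MW, f w * f w' ∂μ = m * cov ν (w - w')) (hp : parallel ν = 0)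
    {c : Lp ℝ 2 μ} (hc : c ∈ values μ) :
    Tendsto (fun t : ℝ => ∫ z : ℂ, gw z * ⟪c, V hs h2 ((t : ℂ) * z)⟫_ℝ ^ 2) atTop (𝓝 0) := sorry
/-- X5 -/
theorem var_erg (hs : IsStationary μ) (h2 : Integrable (fun f : MW => f 0 ^ 2) μ) (hi : Iso μ)
    (hV : V hs h2 0 ≠ 0)
    (hint : ∀ t : ℝ, Integrable (fun p : MW × ℂ => gw p.2 * p.1 ((t : ℂ) * p.2) ^ 2)
      (μ.prod volume))
    (ha : Tendsto (fun t : ℝ => ∫ f : MW,
      |(∫ z, gw z * f ((t : ℂ) * z) ^ 2) - ∫ g : MW, g 0 ^ 2 ∂μ| ∂μ) atTop (𝓝 0))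
    (hb : ∀ c ∈ values μ,
      Tendsto (fun t : ℝ => ∫ z : ℂ, gw z * ⟪c, V hs h2 ((t : ℂ) * z)⟫_ℝ ^ 2) atTop (𝓝 0)) :
    ∀ c ∈ values μ, ∃ k ∈ values μ, k ≠ 0 ∧ ⟪c, k⟫_ℝ = 0 ∧
      ∫ f, ((k f ^ 2 : ℝ) : ℂ) * Complex.exp (I * ((c f : ℝ) : ℂ)) ∂μ = (‖k‖ ^ 2 : ℝ) * ch c := sorry

end

end Pool.Agent.Helper26.Er.Stm2
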